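import Mathlib

/-!
# Odd numbers neither of the form `2 ^ k + p` nor covered

For `s ≥ 3` put `j = 2 ^ s - 1` and `n = 2 ^ j - 1`.

* `n` is not representable: for `k < j` let `i` be the 2-adic valuation of `k + 1`, so `i < s`.
  Modulo the Fermat number `F_i = 2 ^ (2 ^ i) + 1` one has
  `2 * (n - 2 ^ k) = 2 ^ (2 ^ s) - 2 - 2 ^ (k + 1) ≡ 1 - 2 + 1 = 0`, and `1 < F_i < n - 2 ^ k`.
* `n` is not covered: `n - 2 ^ j = -1`, so that for a finite set `Q` of primes the number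
  `n - 2 ^ k` is prime to all `q ∈ Q` for every large `k ≡ j` modulo all `q - 1`.
-/

namespace Pool.Agent.Results.MP_d59f78_nt.NeitherRepresentableNorCovered

/-- `n` is a power of two plus a prime. -/
def Representable (n : ℕ) : Prop := ∃ k p : ℕ, p.Prime ∧ n = 2 ^ k + p

/-- Some finite set of primes meets the prime divisors of `n - 2 ^ k` for every `k ≥ 0`. -/
def Covered (n : ℕ) : Prop :=
  ∃ Q : Finset ℕ, (∀ q ∈ Q, q.Prime) ∧ ∀ k : ℕ, ∃ q ∈ Q, (q : ℤ) ∣ (n : ℤ) - 2 ^ k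

lemma fermat_dvd (s k i m : ℕ) (hm : Odd m) (hk : k + 1 = 2 ^ i * m) (hi : i < s) :
    ((2 : ℤ) ^ (2 ^ i) + 1) ∣ (2 : ℤ) ^ (2 ^ s) - 2 - 2 ^ (k + 1) := by
  have h1 : (2 : ℤ) ^ (2 ^ i) ≡ -1 [ZMOD ((2 : ℤ) ^ (2 ^ i) + 1)] := by
    rw [Int.modEq_iff_dvd]
    exact ⟨-1, by ring⟩
  have h2 : (2 : ℤ) ^ (k + 1) ≡ -1 [ZMOD ((2 : ℤ) ^ (2 ^ i) + 1)] := by
    rw [hk, pow_mul]
    have := h1.pow m
    rwa [hm.neg_one_pow] at this
  have h3 : (2 : ℤ) ^ (2 ^ s) ≡ 1 [ZMOD ((2 : ℤ) ^ (2 ^ i) + 1)] := by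
    obtain ⟨t, rfl⟩ := Nat.exists_eq_add_of_lt hi
    have hpow : (2 : ℕ) ^ (i + t + 1) = 2 ^ i * (2 * 2 ^ t) := by ring
    rw [hpow, pow_mul]
    have h4 := h1.pow (2 * 2 ^ t)
    have h5 : (-1 : ℤ) ^ (2 * 2 ^ t) = 1 := by rw [pow_mul, neg_one_sq, one_pow]
    rwa [h5] at h4
  have h4 := (h3.sub (Int.ModEq.refl 2)).sub h2
  have h5 : (1 : ℤ) - 2 - -1 = 0 := by norm_num
  rw [h5] at h4
  exact Int.modEq_zero_iff_dvd.mp h4

/-- The number `2 ^ (2 ^ s - 1) - 1`. -/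
def N (s : ℕ) : ℕ := 2 ^ (2 ^ s - 1) - 1

lemma two_pow_j (s : ℕ) : 2 * 2 ^ (2 ^ s - 1) = 2 ^ (2 ^ s) := by
  rw [← pow_succ']
  congr 1
  have : 0 < 2 ^ s := by positivity
  omega

lemma not_representable (s : ℕ) (hs : 3 ≤ s) : ¬ Representable (N s) := by
  rintro ⟨k, p, hp, hn⟩
  set j := 2 ^ s - 1 with hj
  have hs8 : 8 ≤ 2 ^ s := by
    calc 8 = 2 ^ 3 := by norm_num
      _ ≤ 2 ^ s := Nat.pow_le_pow_right (by norm_num) hs
  have hNj : N s + 1 = 2 ^ j := by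
    have h1 : 0 < 2 ^ j := by positivity
    have h2 : N s = 2 ^ j - 1 := rfl
    omega
  have hkj : k < j := by
    by_contra hcon
    push Not at hcon
    have : 2 ^ j ≤ 2 ^ k := Nat.pow_le_pow_right (by norm_num) hcon
    have := hp.pos
    omega
  obtain ⟨i, m, hm, hkm⟩ := Nat.exists_eq_two_pow_mul_odd (Nat.succ_ne_zero k)
  have hkm' : k + 1 = 2 ^ i * m := hkm
  have hi : i < s := by
    by_contra hcon
    push Not at hcon
    have h1 : 2 ^ s ≤ 2 ^ i := Nat.pow_le_pow_right (by norm_num) hcon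
    have h2 : 2 ^ i ≤ 2 ^ i * m := Nat.le_mul_of_pos_right _ hm.pos
    omega
  -- the Fermat number divides p
  have hd : ((2 : ℤ) ^ (2 ^ i) + 1) ∣ (p : ℤ) := by
    have h1 := fermat_dvd s k i m hm hkm' hi
    have h2 : (2 : ℤ) ^ (2 ^ s) - 2 - 2 ^ (k + 1) = 2 * (p : ℤ) := by
      have e1 : (2 : ℤ) ^ (2 ^ s) = 2 * 2 ^ j := by
        have := two_pow_j s
        rw [← hj] at this
        exact_mod_cast this.symm
      have e2 : (2 : ℤ) ^ j = 2 ^ k + p + 1 := by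
        have : 2 ^ j = 2 ^ k + p + 1 := by rw [← hNj, hn]
        exact_mod_cast this
      rw [e1, e2]
      ring
    rw [h2] at h1
    refine IsCoprime.dvd_of_dvd_mul_left ?_ h1
    have h3 : (2 : ℤ) ^ (2 ^ i) = 2 * 2 ^ (2 ^ i - 1) := by
      rw [← pow_succ']
      congr 1
      have : 0 < 2 ^ i := by positivity
      omega
    exact ⟨1, -2 ^ (2 ^ i - 1), by rw [h3]; ring⟩
  have hd' : (2 ^ (2 ^ i) + 1) ∣ p := by exact_mod_cast hd
  have hF1 : 2 ^ (2 ^ i) + 1 ≠ 1 := by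
    have : 0 < 2 ^ (2 ^ i) := by positivity
    omega
  have hpF : 2 ^ (2 ^ i) + 1 = p := (hp.eq_one_or_self_of_dvd _ hd').resolve_left hF1
  -- sizes
  have hi2 : 2 ^ i ≤ 2 ^ s / 2 := by
    obtain ⟨t, rfl⟩ := Nat.exists_eq_add_of_lt hi
    have : 2 ^ (i + t + 1) / 2 = 2 ^ (i + t) := by
      rw [pow_succ]
      exact Nat.mul_div_cancel _ (by norm_num)
    rw [this]
    exact Nat.pow_le_pow_right (by norm_num) (by omega)
  have hle1 : 2 ^ (2 ^ i) ≤ 2 ^ (j - 3) := Nat.pow_le_pow_right (by norm_num) (by omega)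
  have hle2 : 2 ^ k ≤ 2 ^ (j - 1) := Nat.pow_le_pow_right (by norm_num) (by omega)
  have e1 : 2 ^ j = 8 * 2 ^ (j - 3) := by
    have : j = 3 + (j - 3) := by omega
    conv_lhs => rw [this, pow_add]
    norm_num
  have e2 : 2 ^ (j - 1) = 4 * 2 ^ (j - 3) := by
    have : j - 1 = 2 + (j - 3) := by omega
    conv_lhs => rw [this, pow_add]
    norm_num
  have hpos : 2 ≤ 2 ^ (j - 3) := by
    calc 2 = 2 ^ 1 := by norm_num
      _ ≤ 2 ^ (j - 3) := Nat.pow_le_pow_right (by norm_num) (by omega)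
  omega

lemma not_covered (s : ℕ) (hs : 3 ≤ s) : ¬ Covered (N s) := by
  rintro ⟨Q, hQ, hcov⟩
  set j := 2 ^ s - 1 with hj
  have hs8 : 8 ≤ 2 ^ s := by
    calc 8 = 2 ^ 3 := by norm_num
      _ ≤ 2 ^ s := Nat.pow_le_pow_right (by norm_num) hs
  have hNj : N s + 1 = 2 ^ j := by
    have h1 : 0 < 2 ^ j := by positivity
    have h2 : N s = 2 ^ j - 1 := rfl
    omega
  obtain ⟨q, hq, hdvd⟩ := hcov (j + ∏ q ∈ Q, (q - 1))
  have hqp := hQ q hq
  have hNz : (N s : ℤ) = 2 ^ j - 1 := by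
    have : ((N s + 1 : ℕ) : ℤ) = ((2 ^ j : ℕ) : ℤ) := by rw [hNj]
    push_cast at this
    linarith
  rcases hqp.eq_two_or_odd' with h2 | hodd
  · -- q = 2
    subst h2
    have hj1 : j ≠ 0 := by omega
    rw [hNz, pow_add] at hdvd
    have h2j : (2 : ℤ) ∣ 2 ^ j := dvd_pow_self 2 hj1
    rw [Nat.cast_ofNat] at hdvd
    have h3 : (2 : ℤ) ∣ 1 := by
      have e : (1 : ℤ) = 2 ^ j - 2 ^ j * 2 ^ (∏ q ∈ Q, (q - 1)) -
          (2 ^ j - 1 - 2 ^ j * 2 ^ (∏ q ∈ Q, (q - 1))) := by ring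
      rw [e]
      exact dvd_sub (dvd_sub h2j (h2j.mul_right _)) hdvd
    norm_num at h3
  · have hfer : (2 : ℤ) ^ (∏ q ∈ Q, (q - 1)) ≡ 1 [ZMOD q] := by
      rw [← Finset.mul_prod_erase Q (fun q => q - 1) hq, pow_mul]
      have h1 : (2 : ℤ) ^ (q - 1) ≡ 1 [ZMOD q] := by
        refine Int.ModEq.pow_card_sub_one_eq_one hqp ?_
        have hc : Nat.Coprime 2 q := (Nat.coprime_two_left).mpr hodd
        exact_mod_cast (Nat.isCoprime_iff_coprime.mpr hc)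
      have h2 := h1.pow (∏ x ∈ Q.erase q, (x - 1))
      simpa using h2
    have h3 : (2 : ℤ) ^ (j + ∏ q ∈ Q, (q - 1)) ≡ 2 ^ j [ZMOD q] := by
      rw [pow_add]
      simpa using (Int.ModEq.refl ((2 : ℤ) ^ j)).mul hfer
    have h4 : (q : ℤ) ∣ 2 ^ j - 2 ^ (j + ∏ q ∈ Q, (q - 1)) := (Int.modEq_iff_dvd.mp h3)
    have h5 : (q : ℤ) ∣ 1 := by
      have e : (1 : ℤ) = (2 ^ j - 2 ^ (j + ∏ q ∈ Q, (q - 1))) -
          ((N s : ℤ) - 2 ^ (j + ∏ q ∈ Q, (q - 1))) := by rw [hNz]; ring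
      rw [e]
      exact dvd_sub h4 hdvd
    have h6 : q ∣ 1 := by exact_mod_cast h5
    exact hqp.one_lt.ne' (Nat.dvd_one.mp h6)

lemma le_N (s : ℕ) (hs : 3 ≤ s) : 3 ≤ N s ∧ Odd (N s) ∧ s ≤ N s := by
  have hs1 : s < 2 ^ s := Nat.lt_two_pow_self
  have h1 : 2 ^ s - 1 < 2 ^ (2 ^ s - 1) := Nat.lt_two_pow_self
  refine ⟨?_, ?_, ?_⟩
  · unfold N
    omega
  · unfold N
    have : Even (2 ^ (2 ^ s - 1)) := (even_two.pow_of_ne_zero (by omega))
    exact Nat.Even.sub_odd (by omega) this odd_one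
  · unfold N
    omega

/-- There are infinitely many odd `n ≥ 3` that are neither representable as `2 ^ k + p` nor
covered. -/
theorem result : {n : ℕ | 3 ≤ n ∧ Odd n ∧ ¬ Representable n ∧ ¬ Covered n}.Infinite := by
  rw [Set.infinite_iff_exists_gt]
  intro a
  obtain ⟨h1, h2, h3⟩ := le_N (a + 3) (by omega)
  exact ⟨N (a + 3), ⟨h1, h2, not_representable _ (by omega), not_covered _ (by omega)⟩, by omega⟩

end Pool.Agent.Results.MP_d59f78_nt.NeitherRepresentableNorCovered
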